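import Mathlib

namespace Pool.Agent.H.MP_e6ec33_pr

open SimpleGraph

variable {V : Type}

def Cov (H : SimpleGraph V) (j : ℕ) : Prop := ∃ P : List (List V), P.length = j ∧
  (∀ l ∈ P, l ≠ [] ∧ l.IsChain H.Adj) ∧ P.flatten.Nodup ∧ ∀ v, v ∈ P.flatten

lemma keep (H : SimpleGraph V) {e : Sym2 V} {a : V} (ha : a ∈ e) : ∀ l : List V, a ∉ l →
    l.IsChain H.Adj → l.IsChain (H.deleteEdges {e}).Adj
  | [], _, _ => .nil
  | [_], _, _ => .singleton _
  | x :: y :: t, h, hc => by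
    rw [List.isChain_cons_cons] at hc ⊢
    refine ⟨?_, keep H ha _ (fun h' => h (List.mem_cons_of_mem _ h')) hc.2⟩
    rw [deleteEdges_adj]
    refine ⟨hc.1, ?_⟩
    rintro rfl
    simp at ha h
    tauto

lemma split (H : SimpleGraph V) (e : Sym2 V) : ∀ l : List V, l.Nodup → l.IsChain H.Adj →
    l.IsChain (H.deleteEdges {e}).Adj ∨ ∃ l1 l2, l = l1 ++ l2 ∧ l1 ≠ [] ∧ l2 ≠ [] ∧
      l1.IsChain (H.deleteEdges {e}).Adj ∧ l2.IsChain (H.deleteEdges {e}).Adj ∧ ∃ a ∈ e, a ∈ l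
  | [], _, _ => .inl .nil
  | [_], _, _ => .inl (.singleton _)
  | x :: y :: t, h, hc => by
    rw [List.isChain_cons_cons] at hc
    rw [List.nodup_cons] at h
    by_cases he : s(x, y) = e
    · exact .inr ⟨[x], y :: t, rfl, by simp, by simp, .singleton _,
        keep H (a := x) (by simp [← he]) _ h.1 hc.2, x, by simp [← he], by simp⟩
    have hxy : (H.deleteEdges {e}).Adj x y := by simpa using ⟨hc.1, he⟩
    rcases split H e _ h.2 hc.2 with h1 | ⟨l1, l2, e1, h1, h2, h3, h4, a, h5, h6⟩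
    · exact .inl (List.isChain_cons_cons.mpr ⟨hxy, h1⟩)
    · refine .inr ⟨x :: l1, l2, by simp [e1], by simp, h2, ?_, h4, a, h5, List.mem_cons_of_mem _ h6⟩
      obtain ⟨z, l, rfl⟩ := List.exists_cons_of_ne_nil h1
      obtain rfl : y = z := (List.cons.inj e1).1
      exact List.isChain_cons_cons.mpr ⟨hxy, h3⟩

lemma splits (H : SimpleGraph V) (e : Sym2 V) : ∀ P : List (List V),
    (∀ l ∈ P, l ≠ [] ∧ l.IsChain H.Adj) → P.flatten.Nodup → ∃ Q : List (List V),
      Q.length ≤ P.length + 1 ∧ (∀ l ∈ Q, l ≠ [] ∧ l.IsChain (H.deleteEdges {e}).Adj) ∧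
        Q.flatten = P.flatten
  | [], _, _ => ⟨[], by simp, by simp, rfl⟩
  | l :: P, h, hn => by
    rw [List.flatten_cons, List.nodup_append] at hn
    rw [List.forall_mem_cons] at h
    rcases split H e l hn.1 h.1.2 with h1 | ⟨l1, l2, e1, h1, h2, h3, h4, a, h5, h6⟩
    · obtain ⟨Q, q1, q2, q3⟩ := splits H e P h.2 hn.2.1
      exact ⟨l :: Q, by simpa using q1, List.forall_mem_cons.mpr ⟨⟨h.1.1, h1⟩, q2⟩, by simp [q3]⟩
    · refine ⟨l1 :: l2 :: P, by simp, List.forall_mem_cons.mpr ⟨⟨h1, h3⟩,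
        List.forall_mem_cons.mpr ⟨⟨h2, h4⟩, fun m hm => ⟨(h.2 m hm).1, keep H h5 m (fun ha => ?_)
          (h.2 m hm).2⟩⟩⟩, by simp [e1]⟩
      exact hn.2.2 a h6 a (List.mem_flatten.mpr ⟨m, hm, ha⟩) rfl

noncomputable def mu (H : SimpleGraph V) : ℕ := sInf {j | Cov H j}

lemma cov_mu [Finite V] (H : SimpleGraph V) : Cov H (mu H) := by
  have := Fintype.ofFinite V
  refine Nat.sInf_mem (s := {j | Cov H j}) ⟨_, (Finset.univ.toList.map fun v => [v]), rfl, ?_, ?_, ?_⟩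
  · simp
  · have : ∀ l : List V, (l.map fun v => [v]).flatten = l := fun l => by induction l <;> simp_all
    rw [this]
    exact Finset.nodup_toList _
  · simp

lemma mu_mono [Finite V] {H K : SimpleGraph V} (h : H ≤ K) : mu K ≤ mu H := by
  obtain ⟨P, h1, h2, h3⟩ := cov_mu H
  exact Nat.sInf_le ⟨P, h1, fun l hl => ⟨(h2 l hl).1, (h2 l hl).2.imp fun _ _ e => h e⟩, h3⟩

lemma mu_del [Finite V] (H : SimpleGraph V) (e : Sym2 V) : mu (H.deleteEdges {e}) ≤ mu H + 1 := by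
  obtain ⟨P, h1, h2, h3, h4⟩ := cov_mu H
  obtain ⟨Q, q1, q2, q3⟩ := splits H e P h2 h3
  exact (Nat.sInf_le (s := {j | Cov _ j}) ⟨Q, rfl, q2, q3 ▸ h3, q3 ▸ h4⟩).trans (h1 ▸ q1)

lemma ivt [Finite V] (G : SimpleGraph V) {k : ℕ} (h : mu G ≤ k) (F : Finset (Sym2 V)) :
    k ≤ mu (G.deleteEdges F) → ∃ A ⊆ F, mu (G.deleteEdges A) = k := by
  classical
  induction F using Finset.induction_on with
  | empty => exact fun h' => ⟨∅, by simp, le_antisymm (by simpa using h) h'⟩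
  | insert e F _ ih =>
    intro h'
    rcases le_or_gt k (mu (G.deleteEdges F)) with h1 | h1
    · obtain ⟨A, h2, h3⟩ := ih h1
      exact ⟨A, h2.trans (Finset.subset_insert _ _), h3⟩
    · refine ⟨_, Finset.Subset.refl _, le_antisymm ?_ h'⟩
      have := mu_del (G.deleteEdges F) e
      rw [deleteEdges_deleteEdges, Set.union_singleton, ← Finset.coe_insert] at this
      omega

lemma iso [Fintype V] (H : SimpleGraph V) (S : Finset V) (hS : ∀ v ∈ S, ∀ w, ¬ H.Adj v w)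
    (hc : S.card < Fintype.card V) : S.card + 1 ≤ mu H := by
  classical
  obtain ⟨P, h1, h2, -, h4⟩ := cov_mu H
  have a1 : ∀ v ∈ S, ∀ l ∈ P, v ∈ l → l = [v] := fun v hv l hl h => by
    obtain ⟨s, t, rfl⟩ := List.append_of_mem h
    have := (h2 _ hl).2
    rcases s.eq_nil_or_concat with rfl | ⟨s, a, rfl⟩
    · rcases t with _ | ⟨b, t⟩
      · rfl
      · exact absurd (List.isChain_cons_cons.mp this).1 (hS v hv b)
    · rw [List.concat_eq_append, List.append_assoc] at this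
      exact absurd (List.isChain_cons_cons.mp this.right_of_append).1.symm (hS v hv a)
  obtain ⟨w, -, hw⟩ := Finset.exists_mem_notMem_of_card_lt_card (s := S) (t := Finset.univ) hc
  obtain ⟨l, hl, hwl⟩ := List.mem_flatten.mp (h4 w)
  have a2 : insert l (S.image fun v => [v]) ⊆ P.toFinset := by
    refine Finset.insert_subset (List.mem_toFinset.mpr hl) (Finset.image_subset_iff.mpr fun v hv => ?_)
    obtain ⟨m, hm, hv'⟩ := List.mem_flatten.mp (h4 v)
    exact List.mem_toFinset.mpr (a1 v hv m hm hv' ▸ hm)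
  have := (Finset.card_le_card a2).trans (List.toFinset_card_le P)
  rwa [Finset.card_insert_of_notMem, Finset.card_image_of_injective _ List.singleton_injective, h1]
    at this
  rw [Finset.mem_image]
  rintro ⟨v, hv, rfl⟩
  exact hw (List.mem_singleton.mp hwl ▸ hv)

open Classical in
lemma det [Fintype V] (G : SimpleGraph V) {k D : ℕ} (hk : k < Fintype.card V) (h : mu G ≤ k + 1)
    (hD : ∀ v, G.degree v ≤ D) : ∃ A : Finset (Sym2 V), (A : Set (Sym2 V)) ⊆ G.edgeSet ∧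
      mu (G.deleteEdges A) = k + 1 ∧ A.card ≤ k * D := by
  obtain ⟨S, -, rfl⟩ := Finset.exists_subset_card_eq (s := (Finset.univ : Finset V)) hk.le
  obtain ⟨A, h1, h2⟩ := ivt G h (S.biUnion fun v => G.incidenceFinset v) <| iso _ S (fun v hv w hw => by
    rw [deleteEdges_adj] at hw
    exact hw.2 (Finset.mem_coe.mpr (Finset.mem_biUnion.mpr ⟨v, hv, by simpa using hw.1⟩))) hk
  refine ⟨A, fun e he => ?_, h2, (Finset.card_le_card h1).trans (Finset.card_biUnion_le_card_mul _ _ _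
    fun v _ => by simpa using hD v)⟩
  obtain ⟨v, -, hv⟩ := Finset.mem_biUnion.mp (h1 he)
  exact ((mem_incidenceFinset _ _ _).mp hv).1

end Pool.Agent.H.MP_e6ec33_pr
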